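import Pool.Agent.helper81.BS.SpecG

/-!
# bs:A6, correctness of the computation of the furthest minimal set
-/

set_option autoImplicit false
set_option linter.dupNamespace false

namespace Pool.Agent.helper81.BS

open Pool.Agent.helper81.PL

theorem A6_path (n : ℕ) (E D Q M : Finset ℕ) (hQ : Disjoint M Q)
    (hres : ∀ a ∈ M, ∀ b < n, b ∉ M → res n E D a b = false) :
    ∀ p : List ℕ, (∀ x ∈ p, x < n) → List.IsChain (fun u w => res n E D u w = true) p →
      (∃ q ∈ Q, p.getLast? = some q) → ∀ x ∈ p, x ∉ M := by
  intro p
  induction p with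
  | nil => intro _ _ _ x hx; simp at hx
  | cons y l ih =>
    intro hlt hch hq
    cases l with
    | nil =>
      obtain ⟨q, hq1, hq2⟩ := hq
      simp at hq2
      intro x hx
      simp at hx
      subst hx
      subst hq2
      exact fun h => Finset.disjoint_left.mp hQ h hq1
    | cons z l =>
      have hch2 : List.IsChain (fun u w => res n E D u w = true) (z :: l) := by
        rw [List.isChain_cons_cons] at hch
        exact hch.2
      have hyz : res n E D y z = true := by
        rw [List.isChain_cons_cons] at hch
        exact hch.1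
      have hq2 : ∃ q ∈ Q, (z :: l).getLast? = some q := by
        obtain ⟨q, hq1, hq2⟩ := hq
        refine ⟨q, hq1, ?_⟩
        rw [← hq2, List.getLast?_cons_cons]
      have ih2 := ih (fun x hx => hlt x (List.mem_cons_of_mem _ hx)) hch2 hq2
      intro x hx
      rcases List.mem_cons.mp hx with h | h
      · subst h
        intro hxM
        have h1 := hres x hxM z (hlt z (by simp)) (ih2 z (by simp))
        rw [h1] at hyz
        exact Bool.noConfusion hyz
      · exact ih2 x h

theorem A6 (hA1 : A1_stmt) (hA2 : A2_stmt) (hA4 : A4_stmt) (hA5 : A5_stmt) (hM3b : M3b_stmt) :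
    A6_stmt := by
  intro N n E Q v P c M hN hWF hQ hP
  have hnN : n ≤ N := le_trans (Nat.le_add_left n (n * n)) hN
  obtain ⟨hOK, val, hval, haug⟩ := hA4 N n E Q P c hN hQ
  have hfm : fm N n E Q v P c = fmD N n E Q v P c (flow N n E Q P c) := rfl
  rw [hfm]
  generalize flow N n E Q P c = D at hOK hval haug
  obtain ⟨h51, h52, h53⟩ := hA5 n E D hWF hOK
  obtain ⟨h21, h22, h23, h24⟩ := hA2 N n E D Q hnN hQ
  have hlow : ∀ M', Feas n E Q v M' → P ⊆ M' → (val : ℤ) ≤ dd n E M' := by
    intro M' hM' hPM'
    rw [← hval M' hPM' hM'.2.1]
    exact h51 M' hM'.1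
  cases hcase : augPath N n E Q P D with
  | some p =>
    have hv : val = c + 1 := haug (by rw [hcase]; simp)
    unfold fmD
    rw [hcase]
    simp only [Option.isSome_some, cond_true]
    constructor
    · intro h
      cases h
    · rintro ⟨h1, h2⟩
      have h3 := hlow M h1.1 h1.2.1
      rw [hv] at h3
      exfalso
      have h4 : c + 1 ≤ dd n E M := by exact_mod_cast h3
      omega
  | none =>
    have hback : ∀ u ∈ back N n E Q D, u ∉ P := by
      intro u hu huP
      unfold back at hu
      rw [List.mem_toFinset, List.mem_map] at hu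
      obtain ⟨p, hp, hpu⟩ := hu
      unfold augPath at hcase
      rw [List.find?_eq_none] at hcase
      have h1 := hcase p hp
      apply h1
      rw [hpu]
      simp [fmem, huP]
    set Mfar := Finset.range n \ back N n E Q D with hMfar
    have hPfar : P ⊆ Mfar := by
      intro u hu
      rw [hMfar, Finset.mem_sdiff]
      exact ⟨hP.1 hu, fun h => hback u h hu⟩
    have hfarQ : Disjoint Mfar Q := by
      rw [Finset.disjoint_left]
      intro u hu huQ
      rw [hMfar, Finset.mem_sdiff] at hu
      exact hu.2 (h22 huQ)
    have hfarn : Mfar ⊆ Finset.range n := Finset.sdiff_subset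
    have hvfar : v ∈ Mfar := hPfar hP.2.2.1
    have hdfar : (dd n E Mfar : ℤ) = val := by
      rw [← hval Mfar hPfar hfarQ]
      exact (h52 (back N n E Q D) h23 h24).symm
    set K := comp N n E Mfar v with hK
    have hcomp : IsComp n E Mfar v K := hA1 N n E Mfar v hnN hfarn hvfar
    obtain ⟨hb1, hb2, hb3⟩ := hM3b n E Mfar v K hWF hfarn hcomp
    have hPK : P ⊆ K := hb3 P hPfar hP.2.2
    have hKF : Feas n E Q v K := by
      refine ⟨hcomp.1.trans hfarn, ?_, hcomp.2.1⟩
      exact Finset.disjoint_of_subset_left hcomp.1 hfarQ
    have hKval : (dd n E K : ℤ) = val := by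
      apply le_antisymm
      · rw [← hdfar, hb2]
        push_cast
        linarith [Int.natCast_nonneg (dd n E (Mfar \ K))]
      · exact hlow K hKF hPK
    have hKFM : IsFM n E Q v P K := by
      refine ⟨hKF, hPK, fun M' hM' hPM' => ⟨?_, fun hle => ?_⟩⟩
      · have h1 := hlow M' hM' hPM'
        rw [← hKval] at h1
        exact_mod_cast h1
      · apply hb3 M' _ hM'.2.2
        have h1 : net n D M' = dd n E M' := by
          apply le_antisymm (h51 M' hM'.1)
          rw [hval M' hPM' hM'.2.1, ← hKval]
          exact_mod_cast hle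
        have h2 := h53 M' hM'.1 h1
        intro u hu
        rw [hMfar, Finset.mem_sdiff]
        refine ⟨hM'.1 hu, fun hub => ?_⟩
        unfold back at hub
        rw [List.mem_toFinset, List.mem_map] at hub
        obtain ⟨p, hp, hpu⟩ := hub
        obtain ⟨hp1, hp2, hp3, hp4⟩ := h21 p hp
        have h3 := A6_path n E D Q M' hM'.2.1 h2 p hp2 hp3 hp4
        cases p with
        | nil =>
          obtain ⟨q, _, hq⟩ := hp4
          simp at hq
        | cons y l =>
          simp at hpu
          subst hpu
          exact h3 y (by simp) hu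
    unfold fmD
    rw [hcase]
    simp only [Option.isSome_none, cond_false]
    rw [← hMfar, ← hK]
    by_cases hc : dd n E K ≤ c
    · have h1 : leb (dd n E K) c = true := by simp [leb, hc]
      rw [h1]
      simp only [cond_true]
      constructor
      · intro h
        have h2 : K = M := Option.some.inj h
        rw [← h2]
        exact ⟨hKFM, hc⟩
      · rintro ⟨h2, h3⟩
        congr 1
        have h4 := hKFM.2.2 M h2.1 h2.2.1
        have h5 := h2.2.2 K hKF hPK
        exact Finset.Subset.antisymm (h5.2 h4.1) (h4.2 h5.1)
    · have h1 : leb (dd n E K) c = false := by simp [leb]; omega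
      rw [h1]
      simp only [cond_false]
      constructor
      · intro h
        cases h
      · rintro ⟨h2, h3⟩
        exfalso
        have h4 := hKFM.2.2 M h2.1 h2.2.1
        omega

end Pool.Agent.helper81.BS
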