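import Pool.Agent.helper73.BS.Spec

/-!
# Project bs, row GD: a generic dichotomy
-/

set_option autoImplicit false
set_option linter.unusedVariables false

namespace Pool.Agent.BS

open Matrix Module Pool.Agent.UG

theorem GD_L {n : ℕ} (A : Submodule ℚ (VQ n)) :
    ∃ (m : ℕ) (L : VQ n →ₗ[ℚ] (Fin m → ℚ)), ∀ v, L v = 0 ↔ v ∈ A := by
  refine ⟨finrank ℚ (VQ n ⧸ A),
    (Module.finBasis ℚ (VQ n ⧸ A)).equivFun.toLinearMap ∘ₗ A.mkQ, fun v => ?_⟩
  rw [LinearMap.comp_apply, LinearEquiv.coe_coe, LinearEquiv.map_eq_zero_iff,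
    Submodule.mkQ_apply, Submodule.Quotient.mk_eq_zero]

theorem GD_span {V : Type} [AddCommGroup V] [Module ℚ V] [FiniteDimensional ℚ V]
    (B : Submodule ℚ V) : ∃ (r : ℕ) (b : Fin r → V), (∀ j, b j ∈ B) ∧
      ∀ w ∈ B, ∃ c : Fin r → ℚ, w = ∑ j, c j • b j := by
  let β := Module.finBasis ℚ B
  refine ⟨finrank ℚ B, fun j => (β j : V), fun j => (β j).2,
    fun w hw => ⟨fun j => β.repr ⟨w, hw⟩ j, ?_⟩⟩
  have h := congrArg B.subtype (β.sum_repr ⟨w, hw⟩)
  rw [map_sum] at h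
  exact h.symm

theorem GD (hGL : GL_stmt) : GD_stmt := by
  intro n 𝔢 A B
  obtain ⟨m, L, hL⟩ := GD_L A
  obtain ⟨r, E, hE, hE'⟩ := GD_span 𝔢
  obtain ⟨q, b, hb, hb'⟩ := GD_span B
  by_cases hc : Gen (fun u : VQ n => ¬ ∀ w ∈ B, ∃ X ∈ 𝔢, X *ᵥ u - w ∈ A)
  · exact Or.inr hc
  refine Or.inl ?_
  -- the polynomials
  let PA : Fin m → Fin r → MvPolynomial (Fin n) ℚ := fun i a =>
    ∑ k, (∑ l, MvPolynomial.C (E a k l) * MvPolynomial.X l) *
      MvPolynomial.C (L (Pi.single k 1) i)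
  have hPA : ∀ u i a, MvPolynomial.eval u (PA i a) = L (E a *ᵥ u) i := by
    intro u i a
    have h1 : E a *ᵥ u = ∑ k, (E a *ᵥ u) k • (Pi.single k 1 : VQ n) := by
      conv_lhs => rw [← Finset.univ_sum_single (E a *ᵥ u)]
      refine Finset.sum_congr rfl fun k _ => ?_
      rw [← Pi.single_smul, smul_eq_mul, mul_one]
    have h2 : L (E a *ᵥ u) i = ∑ k, (E a *ᵥ u) k * L (Pi.single k 1) i := by
      conv_lhs => rw [h1, map_sum L, Finset.sum_apply]
      refine Finset.sum_congr rfl fun k _ => ?_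
      rw [map_smul, Pi.smul_apply, smul_eq_mul]
    rw [h2]
    simp only [PA, map_sum, map_mul, MvPolynomial.eval_C, MvPolynomial.eval_X]
    refine Finset.sum_congr rfl fun k _ => ?_
    rfl
  have hsum : ∀ u (x : Fin r → ℚ) i, ∑ a, MvPolynomial.eval u (PA i a) * x a
      = L ((∑ a, x a • E a) *ᵥ u) i := by
    intro u x i
    rw [Matrix.sum_mulVec, map_sum, Finset.sum_apply]
    refine Finset.sum_congr rfl fun a _ => ?_
    rw [hPA, smul_mulVec, map_smul, Pi.smul_apply, smul_eq_mul, mul_comm]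
  have key : ∀ j : Fin q, Gen (fun u : VQ n => ∃ X ∈ 𝔢, X *ᵥ u - b j ∈ A) := by
    intro j
    have hn : ¬ Gen (fun u : VQ n => ¬ ∃ x : Fin r → ℚ, ∀ i,
        ∑ a, MvPolynomial.eval u (PA i a) * x a
          = MvPolynomial.eval u (MvPolynomial.C (L (b j) i) : MvPolynomial (Fin n) ℚ)) := by
      intro hg
      apply hc
      refine hg.mono fun u hu hall => hu ?_
      obtain ⟨X, hX, hXA⟩ := hall (b j) (hb j)
      obtain ⟨x, hx⟩ := hE' X hX
      refine ⟨x, fun i => ?_⟩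
      rw [hsum, MvPolynomial.eval_C, ← hx]
      have h1 := (hL _).2 hXA
      rw [map_sub, sub_eq_zero] at h1
      rw [h1]
    obtain ⟨x, d, hd, hx⟩ := hGL n m r PA (fun i => MvPolynomial.C (L (b j) i)) hn
    refine ⟨d, hd, fun u hu => ?_⟩
    refine ⟨∑ a, ((MvPolynomial.eval u d)⁻¹ * MvPolynomial.eval u (x a)) • E a,
      Submodule.sum_mem _ fun a _ => Submodule.smul_mem _ _ (hE a), ?_⟩
    rw [← hL, map_sub, sub_eq_zero]
    funext i
    rw [← hsum]
    have h1 := hx u i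
    rw [MvPolynomial.eval_C] at h1
    calc ∑ a, MvPolynomial.eval u (PA i a) *
          ((MvPolynomial.eval u d)⁻¹ * MvPolynomial.eval u (x a))
        = (MvPolynomial.eval u d)⁻¹ * ∑ a, MvPolynomial.eval u (PA i a) *
            MvPolynomial.eval u (x a) := by
          rw [Finset.mul_sum]
          refine Finset.sum_congr rfl fun a _ => ?_
          ring
      _ = L (b j) i := by rw [h1, inv_mul_cancel_left₀ hu]
  refine (Gen.all Finset.univ (fun (j : Fin q) (u : VQ n) => ∃ X ∈ 𝔢, X *ᵥ u - b j ∈ A)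
    fun j _ => key j).mono fun u hu w hw => ?_
  choose X hX hXA using fun j => hu j (Finset.mem_univ j)
  obtain ⟨c, hc'⟩ := hb' w hw
  refine ⟨∑ j, c j • X j, Submodule.sum_mem _ fun j _ => Submodule.smul_mem _ _ (hX j), ?_⟩
  have h1 : (∑ j, c j • X j) *ᵥ u - w = ∑ j, c j • (X j *ᵥ u - b j) := by
    rw [hc', Matrix.sum_mulVec, ← Finset.sum_sub_distrib]
    refine Finset.sum_congr rfl fun j _ => ?_
    rw [smul_mulVec, smul_sub]
  rw [h1]
  exact Submodule.sum_mem _ fun j _ => Submodule.smul_mem _ _ (hXA j)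

end Pool.Agent.BS
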