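import Pool.Agent.helper73.BS.Spec

/-!
# Project bs, row NX: the semisimple case
-/

set_option autoImplicit false
set_option linter.unusedVariables false

namespace Pool.Agent.BS

open Matrix Module Pool.Agent.UG

/-! ### Linear algebra -/

theorem NX_scal {n : ℕ} (hn : 2 ≤ n) (y : MQ n) (u : VQ n) (hu : u ≠ 0)
    (hy : ∀ w, y *ᵥ w ∈ Submodule.span ℚ ({u, w} : Set (VQ n))) :
    ∃ a : ℚ, ∀ w, ∃ c : ℚ, y *ᵥ w = a • w + c • u := by
  have hy' : ∀ w, ∃ p q : ℚ, p • u + q • w = y *ᵥ w := fun w => Submodule.mem_span_pair.1 (hy w)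
  obtain ⟨e, he⟩ : ∃ e : VQ n, ∀ c : ℚ, e ≠ c • u := by
    obtain ⟨i, hi⟩ : ∃ i, u i ≠ 0 := by
      by_contra hcon
      push Not at hcon
      exact hu (funext hcon)
    obtain ⟨j, hj⟩ : ∃ j : Fin n, j ≠ i := by
      have : Nontrivial (Fin n) := Fin.nontrivial_iff_two_le.2 hn
      exact exists_ne i
    refine ⟨Pi.single j 1, fun c hc => ?_⟩
    have h1 := congrFun hc i
    rw [Pi.single_eq_of_ne (Ne.symm hj), Pi.smul_apply, smul_eq_mul] at h1
    have hc0 : c = 0 := by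
      rcases mul_eq_zero.1 h1.symm with h | h
      · exact h
      · exact absurd h hi
    have h2 := congrFun hc j
    rw [Pi.single_eq_same, hc0, zero_smul, Pi.zero_apply] at h2
    exact one_ne_zero h2
  obtain ⟨b, a, hae⟩ := hy' e
  refine ⟨a, fun w => ?_⟩
  by_cases hw : ∃ p q : ℚ, w = p • u + q • e
  · obtain ⟨p, q, rfl⟩ := hw
    obtain ⟨c1, c2, hc⟩ := hy' u
    rw [← add_smul] at hc
    refine ⟨p * (c1 + c2) + q * b - a * p, ?_⟩
    rw [mulVec_add, mulVec_smul, mulVec_smul, ← hc, ← hae]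
    funext i
    simp only [Pi.add_apply, Pi.smul_apply, smul_eq_mul]
    ring
  · obtain ⟨β, α, hw1⟩ := hy' w
    obtain ⟨δ, γ, hw2⟩ := hy' (w + e)
    have h1 : δ • u + γ • (w + e) = (β • u + α • w) + (b • u + a • e) := by
      rw [hw2, mulVec_add, ← hw1, ← hae]
    have hαγ : α = γ := by
      by_contra hne
      apply hw
      have h2 : γ - α ≠ 0 := sub_ne_zero.2 (Ne.symm hne)
      refine ⟨(γ - α)⁻¹ * (β + b - δ), (γ - α)⁻¹ * (a - γ), ?_⟩
      funext i
      have h3 := congrFun h1 i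
      simp only [Pi.add_apply, Pi.smul_apply, smul_eq_mul] at h3 ⊢
      have h4 : (γ - α) * w i = (β + b - δ) * u i + (a - γ) * e i := by linarith
      calc w i = (γ - α)⁻¹ * ((γ - α) * w i) := by rw [inv_mul_cancel_left₀ h2]
        _ = _ := by rw [h4]; ring
    have haγ : a = γ := by
      by_contra hne
      have h2 : a - γ ≠ 0 := sub_ne_zero.2 hne
      apply he ((a - γ)⁻¹ * (δ - β - b))
      funext i
      have h3 := congrFun h1 i
      simp only [Pi.add_apply, Pi.smul_apply, smul_eq_mul] at h3 ⊢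
      rw [hαγ] at h3
      have h4 : (a - γ) * e i = (δ - β - b) * u i := by linarith
      calc e i = (a - γ)⁻¹ * ((a - γ) * e i) := by rw [inv_mul_cancel_left₀ h2]
        _ = _ := by rw [h4]; ring
    refine ⟨β, ?_⟩
    rw [← hw1, hαγ, haγ, add_comm]

theorem NX_det {n : ℕ} (hn : 2 ≤ n) (y : MQ n) (u : VQ n) (hu : u ≠ 0) (hyu : y *ᵥ u = u)
    (hdet : y.det = 1) (a : ℚ) (hy : ∀ w, ∃ c : ℚ, y *ᵥ w = a • w + c • u) :
    a ^ (n - 1) = 1 := by
  have : Nontrivial (Fin n) := Fin.nontrivial_iff_two_le.2 hn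
  obtain ⟨i, hi⟩ : ∃ i, u i ≠ 0 := by
    by_contra hcon
    push Not at hcon
    exact hu (funext hcon)
  choose l hl using fun j : Fin n => hy (Pi.single j 1)
  have hent : ∀ i j, y i j = a * (1 : MQ n) i j + u i * l j := by
    intro i j
    have h1 := congrFun (hl j) i
    rw [mulVec_single_one] at h1
    rw [Pi.add_apply, Pi.smul_apply, Pi.smul_apply, smul_eq_mul, smul_eq_mul] at h1
    have h2 : (Pi.single j 1 : VQ n) i = (1 : MQ n) i j := by
      rw [Matrix.one_apply, Pi.single_apply]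
    rw [h2, mul_comm (l j)] at h1
    exact h1
  have hlu : l ⬝ᵥ u = 1 - a := by
    have h1 := congrFun hyu i
    have h2 : (y *ᵥ u) i = a * u i + u i * (l ⬝ᵥ u) := by
      have h3 : y *ᵥ u = a • u + (l ⬝ᵥ u) • u := by
        funext z
        show ∑ j, y z j * u j = a * u z + (∑ j, l j * u j) * u z
        rw [Finset.sum_congr rfl fun j _ => by rw [hent z j]]
        simp only [add_mul, Finset.sum_add_distrib]
        congr 1
        · have h4 : ∀ j, a * (1 : MQ n) z j * u j = if z = j then a * u j else 0 := by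
            intro j
            rw [Matrix.one_apply]
            split_ifs <;> ring
          rw [Finset.sum_congr rfl fun j _ => h4 j, Finset.sum_ite_eq]
          simp
        · rw [Finset.sum_mul]
          refine Finset.sum_congr rfl fun j _ => ?_
          ring
      rw [h3]
      simp only [Pi.add_apply, Pi.smul_apply, smul_eq_mul]
      ring
    rw [h2] at h1
    have h5 : u i * (a + l ⬝ᵥ u - 1) = 0 := by linarith
    rcases mul_eq_zero.1 h5 with h | h
    · exact absurd h hi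
    · linarith
  have ha : a ≠ 0 := by
    intro h0
    have h1 : y = vecMulVec u l := by
      ext p q
      rw [hent, h0, zero_mul, zero_add, vecMulVec_apply]
    rw [h1, det_vecMulVec] at hdet
    exact zero_ne_one hdet
  have h1 : y = a • (1 + replicateCol Unit u * replicateRow Unit (a⁻¹ • l)) := by
    ext p q
    rw [hent, Matrix.smul_apply, Matrix.add_apply, smul_eq_mul, mul_add]
    congr 1
    rw [Matrix.mul_apply]
    simp only [Finset.univ_unique, Finset.sum_singleton, replicateCol_apply, replicateRow_apply,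
      Pi.smul_apply, smul_eq_mul]
    rw [mul_left_comm, ← mul_assoc a, mul_inv_cancel₀ ha, one_mul]
  rw [h1, det_smul, det_one_add_replicateCol_mul_replicateRow, smul_dotProduct, hlu,
    Fintype.card_fin, smul_eq_mul] at hdet
  have h2 : 1 + a⁻¹ * (1 - a) = a⁻¹ := by
    field_simp
    ring
  rw [h2] at hdet
  have h3 : a ^ n = a ^ (n - 1) * a := by
    rw [← pow_succ]
    congr 1
    omega
  rw [h3, mul_assoc, mul_inv_cancel₀ ha, mul_one] at hdet
  exact hdet

theorem NX_neat {n : ℕ} (hn : 2 ≤ n) (y : MQ n) (u : VQ n) (hu : u ≠ 0) (hyu : y *ᵥ u = u)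
    (hN : Neat y) (a : ℚ) (ha : a ^ (n - 1) = 1)
    (hy : ∀ w, ∃ c : ℚ, y *ᵥ w = a • w + c • u) : a = 1 := by
  by_contra ha1
  have ha1' : a - 1 ≠ 0 := sub_ne_zero.2 ha1
  -- an eigenvector
  obtain ⟨v, hv0, hv⟩ : ∃ v : VQ n, v ≠ 0 ∧ y *ᵥ v = a • v := by
    obtain ⟨i, hi⟩ : ∃ i, u i ≠ 0 := by
      by_contra hcon
      push Not at hcon
      exact hu (funext hcon)
    obtain ⟨j, hj⟩ : ∃ j : Fin n, j ≠ i := by
      have : Nontrivial (Fin n) := Fin.nontrivial_iff_two_le.2 hn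
      exact exists_ne i
    obtain ⟨b, hb⟩ := hy (Pi.single j 1)
    refine ⟨Pi.single j 1 + ((a - 1)⁻¹ * b) • u, ?_, ?_⟩
    · intro h0
      have h1 := congrFun h0 i
      rw [Pi.add_apply, Pi.single_eq_of_ne (Ne.symm hj), Pi.smul_apply, smul_eq_mul, zero_add,
        Pi.zero_apply] at h1
      have h2 : (a - 1)⁻¹ * b = 0 := by
        rcases mul_eq_zero.1 h1 with h | h
        · exact h
        · exact absurd h hi
      rw [h2, zero_smul, add_zero] at h0
      have h3 := congrFun h0 j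
      rw [Pi.single_eq_same] at h3
      exact one_ne_zero h3
    · rw [mulVec_add, mulVec_smul, hb, hyu]
      funext z
      simp only [Pi.add_apply, Pi.smul_apply, smul_eq_mul]
      have h4 : b + (a - 1)⁻¹ * b = a * ((a - 1)⁻¹ * b) := by
        field_simp
        ring
      linear_combination (u z) * h4
  obtain ⟨Λ, hΛ, hE⟩ := hN
  obtain ⟨z, hz, hza⟩ := hE (algebraMap ℚ KB a) (fun i => algebraMap ℚ KB (v i)) (by
    intro h0
    apply hv0
    funext i
    have h1 := congrFun h0 i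
    exact (map_eq_zero (algebraMap ℚ KB)).1 h1) (by
    funext i
    have h1 := congrFun hv i
    show ∑ j, algebraMap ℚ KB (y i j) * algebraMap ℚ KB (v j) = algebraMap ℚ KB a • algebraMap ℚ KB (v i)
    rw [smul_eq_mul, ← map_mul]
    have h2 : a * v i = ∑ j, y i j * v j := h1.symm
    rw [h2, map_sum]
    refine Finset.sum_congr rfl fun j _ => ?_
    rw [map_mul])
  have hz1 : z = 1 := by
    apply hΛ z hz (n - 1) (by omega)
    apply Units.ext
    rw [Units.val_pow_eq_pow_val, hza, ← map_pow, ha, map_one, Units.val_one]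
  rw [hz1, Units.val_one] at hza
  apply ha1
  apply (algebraMap ℚ KB).injective
  rw [← hza, map_one]

/-! ### The flag -/

theorem NX_exp_fil {n : ℕ} {W : ℕ → Submodule ℚ (VQ n)} {k : ℕ} (hm : Monotone W) (h0 : W 0 = ⊥)
    (hk : W k = ⊤) {X : MQ n} (hX : X ∈ fil W 1) : IsNilpotent.exp X - 1 ∈ fil W 1 := by
  obtain ⟨m, hm0⟩ := fil_one_nil h0 hk hX
  have h1 : ∀ i, X ^ (i + 1) ∈ fil W 1 := by
    intro i
    induction i with
    | zero => rw [zero_add, pow_one]; exact hX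
    | succ i ih =>
      rw [pow_succ]
      exact fil_anti hm 1 (fil_mul ih hX)
  have h2 : X ^ (m + 1) = 0 := by rw [pow_succ, hm0, zero_mul]
  rw [IsNilpotent.exp_eq_sum h2, Finset.sum_range_succ']
  simp only [Nat.factorial_zero, Nat.cast_one, inv_one, pow_zero, one_smul, add_sub_cancel_right]
  exact Submodule.sum_mem _ fun i _ => Submodule.smul_mem _ _ (h1 i)

theorem NX_sq {n : ℕ} (A B : MQ n) : (A - B) ^ 2 = A * A - A * B - B * A + B * B := by
  rw [pow_two, sub_mul, mul_sub, mul_sub]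
  abel

theorem NX_nil {n : ℕ} {P : Subgroup (SLZ n)} {𝔲 : Submodule ℚ (MQ n)} {k : ℕ}
    {W : ℕ → Submodule ℚ (VQ n)} (h : FS P 𝔲 k W) {X : MQ n} (hX : X ∈ 𝔲) {g : SLZ n}
    (hg : g ∈ P) (hy : (IsNilpotent.exp X * qg g - 1) * (IsNilpotent.exp X * qg g - 1) = 0) :
    IsNilpotent (qg g - 1) := by
  have hX1 : X ∈ fil W 1 := (mem_fil_one h.bot).2 (h.down X hX)
  have hE := NX_exp_fil h.mono h.bot h.top hX1
  have hG : qg g ∈ fil W 0 := fun a w hw => h.stab g hg a w hw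
  have h1 : (1 : MQ n) ∈ fil W 0 := fun a w hw => by rw [one_mulVec]; exact hw
  set A : MQ n := IsNilpotent.exp X * qg g - 1 with hA
  set B : MQ n := (IsNilpotent.exp X - 1) * qg g with hB
  have hB1 : B ∈ fil W 1 := fil_mul hE hG
  have hAB : qg g - 1 = A - B := by
    rw [hA, hB, sub_mul, one_mul]
    abel
  have hA0 : A ∈ fil W 0 := by
    have h2 : A = (qg g - 1) + B := by rw [hAB]; abel
    rw [h2]
    exact Submodule.add_mem _ (Submodule.sub_mem _ hG h1) (fil_anti h.mono 0 hB1)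
  have h3 : (qg g - 1) ^ 2 ∈ fil W 1 := by
    have h4 : (qg g - 1) ^ 2 = A * A - A * B - B * A + B * B := by
      rw [hAB]
      exact NX_sq A B
    rw [h4, hy, zero_sub]
    refine Submodule.add_mem _ (Submodule.sub_mem _ (Submodule.neg_mem _ ?_) ?_) ?_
    · have h5 := fil_mul hA0 hB1
      rwa [zero_add] at h5
    · exact fil_mul hB1 hA0
    · exact fil_anti h.mono 1 (fil_mul hB1 hB1)
  obtain ⟨m, hm⟩ := fil_one_nil h.bot h.top h3
  exact ⟨2 * m, by rw [pow_mul]; exact hm⟩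

/-! ### Closures -/

theorem NX_fix {n : ℕ} {S : Set (MQ n)} {u : VQ n} (hS : ∀ z ∈ S, z *ᵥ u = u) {x : MQ n}
    (hx : x ∈ ZQ S) : x *ᵥ u = u := by
  funext i
  have h1 := hx (∑ j, MvPolynomial.X (i, j) * MvPolynomial.C (u j) - MvPolynomial.C (u i)) (by
    intro z hz
    simp only [map_sub, map_sum, map_mul, MvPolynomial.eval_X, MvPolynomial.eval_C]
    have h2 := congrFun (hS z hz) i
    have h3 : ∑ j, z i j * u j = u i := h2
    rw [h3, sub_self])
  simp only [map_sub, map_sum, map_mul, MvPolynomial.eval_X, MvPolynomial.eval_C] at h1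
  exact sub_eq_zero.1 h1

theorem NX_comm {n : ℕ} {s N : MQ n} (h : Commute s N) (hN : IsNilpotent N) :
    Commute s (IsNilpotent.exp N) := by
  obtain ⟨m, hm⟩ := hN
  rw [IsNilpotent.exp_eq_sum hm]
  exact Commute.sum_right _ _ _ fun i _ => (h.pow_right i).smul_right _

theorem NX_in {n : ℕ} (hZG : ZG_stmt) {P : Subgroup (SLZ n)} {W : ℕ → Submodule ℚ (VQ n)}
    {X : MQ n} (hX : Rad P W X) {g : SLZ n} (hg : g ∈ P) :
    IsNilpotent.exp X * qg g ∈ ZQ (mz P) := by
  have h1 := hX.2 1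
  rw [one_smul] at h1
  exact (hZG n P).1 _ h1 _ (subset_ZQ _ ⟨g, hg, rfl⟩)

theorem NX_solv (hFF : FF_stmt) (hJE : JE_stmt) (hJZ : JZ_stmt) (hZG : ZG_stmt) {n : ℕ}
    {P : Subgroup (SLZ n)} {𝔲 : Submodule ℚ (MQ n)} {k : ℕ} {W : ℕ → Submodule ℚ (VQ n)}
    (h : FS P 𝔲 k W) {g : SLZ n} (hg : g ∈ P) {s₀ N₀ : MQ n} (hJ : JD (qg g) s₀ N₀)
    (hN₀ : N₀ ∈ 𝔲) {u : VQ n} (hu : SolvG (ff P 𝔲) (qg g) ⊥ u) : SolvG 𝔲 (qg g) ⊥ u := by
  obtain ⟨f1, f2, f3, f4⟩ := hFF n P 𝔲 k W h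
  obtain ⟨X, hX, hXu⟩ := hu
  rw [Submodule.mem_bot, sub_eq_zero, mulVec_mulVec] at hXu
  have hyP := NX_in hZG (f1 X hX) hg
  have hdet := ((hZG n P).2 _ hyP).1
  have hunit : IsUnit (IsNilpotent.exp X * qg g).det := by rw [hdet]; exact isUnit_one
  obtain ⟨s, N, hJD, -, -, -⟩ := hJE n _ hunit
  obtain ⟨hNf, hNX⟩ := f4 X hX g hg s N s₀ N₀ hJD hJ
  have hNX' : N - X ∈ 𝔲 := by
    have h1 := Submodule.add_mem _ hNX hN₀
    rwa [sub_add_cancel] at h1
  have hs : s *ᵥ u = u := by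
    have h1 := hJZ n _ s N hunit hJD 1 0
    rw [pow_one, zero_smul, IsNilpotent.exp_zero, mul_one] at h1
    refine NX_fix ?_ h1
    rintro z ⟨j, rfl⟩
    induction j with
    | zero => rw [pow_zero, one_mulVec]
    | succ j ih => rw [pow_succ, ← mulVec_mulVec, hXu, ih]
  obtain ⟨hNn, hsN, -, hyeq⟩ := hJD
  obtain ⟨Z, hZf, hZ1, hZ2⟩ := f2 (-N) (Submodule.neg_mem _ hNf) X hX
  have hZu : Z ∈ 𝔲 := by
    have h1 : Z = (Z - -N - X) - (N - X) := by abel
    rw [h1]
    exact Submodule.sub_mem _ hZ2 hNX'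
  refine ⟨Z, hZu, ?_⟩
  have h2 : IsNilpotent.exp Z * qg g = s := by
    rw [← hZ1, mul_assoc, hyeq, (NX_comm hsN hNn).eq, ← mul_assoc,
      IsNilpotent.exp_neg_mul_exp_self hNn, one_mul]
  rw [Submodule.mem_bot, mulVec_mulVec, h2, hs, sub_self]

theorem NX (hFF : FF_stmt) (hGE : GE_stmt) (hGI : GI_stmt) (hJE : JE_stmt) (hJZ : JZ_stmt)
    (hJN : JN_stmt) (hPW : PW_stmt) (hEG : EG_stmt) (hZG : ZG_stmt) (hRU : RU_stmt)
    (hEI : EI_stmt) (hEXJ : UG.EXJ_stmt) : NX_stmt := by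
  intro n hn P 𝔲 k W h _ hsolv hex
  obtain ⟨g, hg, hnil, s₀, N₀, hJ, hN₀⟩ := hex
  obtain ⟨f1, -, -, -⟩ := hFF n P 𝔲 k W h
  have hgen : Gen (SolvG 𝔲 (qg g) ⊥) :=
    (hsolv g hg).mono fun u hu => NX_solv hFF hJE hJZ hZG h hg hJ hN₀ hu
  obtain ⟨gt, hRF, hgt⟩ := hGE n k 𝔲 W (qg g) h.mono h.bot h.top h.down h.grp 0 (Nat.zero_le k)
    (by
      intro hcon
      obtain ⟨u, hu1, hu2⟩ := (hgen.and hcon).exists
      rw [h.bot] at hu2
      exact hu2 hu1)
  have main : ∀ u, ((∃ X ∈ 𝔲, gt u = IsNilpotent.exp X) ∧ gt u *ᵥ (qg g *ᵥ u) - u ∈ W 0) →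
      ∃ X ∈ 𝔲, gt u * qg g = IsNilpotent.exp X * qg g ∧ (gt u * qg g) *ᵥ u = u ∧
        (gt u * qg g).det = 1 := by
    rintro u ⟨⟨X, hX, hXe⟩, hfix⟩
    rw [h.bot, Submodule.mem_bot, sub_eq_zero, mulVec_mulVec] at hfix
    refine ⟨X, hX, by rw [hXe], hfix, ?_⟩
    have h1 := NX_in hZG (f1 X (Submodule.mem_sup_left hX)) hg
    rw [hXe]
    exact ((hZG n P).2 _ h1).1
  refine ⟨fun u => gt u * qg g, hRF.mul (RF.const (qg g)), ?_, ?_⟩
  · refine hgt.mono fun u hu => ?_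
    obtain ⟨X, hX, hXe, hfix, hdet⟩ := main u hu
    show gt u * qg g ∈ ZQ (fixP P u)
    rw [hXe] at hfix hdet ⊢
    obtain ⟨M, hM, p, hp, hpM⟩ := hPW n P 𝔲 k W h X hX g hg
    have h1 := hJN n _ (by rw [hdet]; exact isUnit_one) (hEG n P 𝔲 k W h X hX g hg) M hM 1
    rw [pow_one] at h1
    refine ZQ_mono ?_ h1
    rintro z ⟨j, rfl⟩
    rw [pow_mul, hpM, ← qg_pow]
    have hpu : qg p *ᵥ u = u := by
      rw [← hpM]
      have h2 : ∀ j : ℕ, ((IsNilpotent.exp X * qg g) ^ j) *ᵥ u = u := by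
        intro j
        induction j with
        | zero => rw [pow_zero, one_mulVec]
        | succ j ih => rw [pow_succ, ← mulVec_mulVec, hfix, ih]
      exact h2 M
    refine ⟨p ^ j, P.pow_mem hp j, ?_, rfl⟩
    rw [qg_pow]
    induction j with
    | zero => rw [pow_zero, one_mulVec]
    | succ j ih => rw [pow_succ, ← mulVec_mulVec, hpu, ih]
  · have hX0 : (MvPolynomial.X (⟨0, by omega⟩ : Fin n) : MvPolynomial (Fin n) ℚ) ≠ 0 :=
      MvPolynomial.X_ne_zero _
    refine (hgt.and (Gen.of_ne hX0)).mono fun u hu => ?_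
    obtain ⟨hu1, hu2⟩ := hu
    obtain ⟨X, hX, hXe, hfix, hdet⟩ := main u hu1
    have hu0 : u ≠ 0 := by
      rintro rfl
      apply hu2
      rw [MvPolynomial.eval_X]
      rfl
    show ∃ w, (gt u * qg g) *ᵥ w ∉ Submodule.span ℚ ({u, w} : Set (VQ n))
    rw [hXe] at hfix hdet ⊢
    by_contra hcon
    push Not at hcon
    obtain ⟨a, ha⟩ := NX_scal hn _ u hu0 hcon
    have ha1 := NX_det hn _ u hu0 hfix hdet a ha
    have ha2 := NX_neat hn _ u hu0 hfix (hEG n P 𝔲 k W h X hX g hg) a ha1 ha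
    apply hnil
    apply NX_nil h hX hg
    apply Matrix.toLin'.injective
    apply LinearMap.ext
    intro w
    rw [Matrix.toLin'_apply, map_zero, LinearMap.zero_apply, ← mulVec_mulVec]
    obtain ⟨c, hc⟩ := ha w
    have h1 : (IsNilpotent.exp X * qg g - 1) *ᵥ w = c • u := by
      rw [sub_mulVec, one_mulVec, hc, ha2, one_smul, add_sub_cancel_left]
    rw [h1, mulVec_smul, sub_mulVec, one_mulVec, hfix, sub_self, smul_zero]

end Pool.Agent.BS
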