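import Pool.Agent.helper73.BS.Spec2

/-!
# Project bs, row ST: the common vector
-/

set_option autoImplicit false
set_option linter.unusedVariables false

namespace Pool.Agent.BS

open Matrix Module Pool.Agent.UG Pool.Agent.H48SL Pool.Agent.SHL

theorem ST_mul {n : ℕ} (g h : SLZ n) (w : VQ n) : qg (g * h) *ᵥ w = qg g *ᵥ (qg h *ᵥ w) := by
  rw [qg_mul, mulVec_mulVec]

theorem ST_inv {n : ℕ} (g : SLZ n) (w : VQ n) : qg g⁻¹ *ᵥ (qg g *ᵥ w) = w := by
  rw [mulVec_mulVec, qg_inv_mul, one_mulVec]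

theorem ST_inv' {n : ℕ} (g : SLZ n) (w : VQ n) : qg g *ᵥ (qg g⁻¹ *ᵥ w) = w := by
  rw [mulVec_mulVec, qg_mul_inv, one_mulVec]

theorem ST_exp {n : ℕ} {X : MQ n} (hX : IsNilpotent X) {w : VQ n} (hw : X *ᵥ w = 0) :
    IsNilpotent.exp X *ᵥ w = w := by
  obtain ⟨m, hm⟩ := hX
  have hm1 : X ^ (m + 1) = 0 := by rw [pow_succ, hm, zero_mul]
  rw [IsNilpotent.exp_eq_sum hm1, Finset.sum_range_succ', Matrix.add_mulVec, Matrix.sum_mulVec]
  have h1 : ∑ i ∈ Finset.range m, (((i + 1).factorial : ℚ)⁻¹ • X ^ (i + 1)) *ᵥ w = 0 := by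
    refine Finset.sum_eq_zero fun i _ => ?_
    rw [smul_mulVec, pow_succ, ← mulVec_mulVec, hw, mulVec_zero, smul_zero]
  rw [h1, zero_add, pow_zero, Nat.factorial_zero, Nat.cast_one, inv_one, one_smul, one_mulVec]

theorem ST_surj {n : ℕ} (L : VQ n →ₗ[ℚ] VQ n) (T : Submodule ℚ (VQ n))
    (hT : ∀ x ∈ T, L x ∈ T) (hinj : ∀ x ∈ T, L x = 0 → x = 0) :
    ∀ y ∈ T, ∃ x ∈ T, L x = y := by
  intro y hy
  have h1 : Function.Injective (L.restrict hT) := by
    rw [← LinearMap.ker_eq_bot, LinearMap.ker_eq_bot']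
    rintro ⟨x, hx⟩ h
    have h2 : L x = 0 := congrArg Subtype.val h
    exact Subtype.ext (hinj x hx h2)
  obtain ⟨⟨x, hx⟩, h3⟩ := (LinearMap.injective_iff_surjective.1 h1) ⟨y, hy⟩
  exact ⟨x, hx, congrArg Subtype.val h3⟩

theorem ST_clear {n : ℕ} (A : AddSubgroup (VQ n)) {x : VQ n}
    (hx : x ∈ Submodule.span ℚ (A : Set (VQ n))) : ∃ m : ℕ, 0 < m ∧ (m : ℚ) • x ∈ A := by
  induction hx using Submodule.span_induction with
  | mem x hx => exact ⟨1, one_pos, by rw [Nat.cast_one, one_smul]; exact hx⟩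
  | zero => exact ⟨1, one_pos, by rw [smul_zero]; exact A.zero_mem⟩
  | add x y _ _ ihx ihy =>
    obtain ⟨m, hm, hmx⟩ := ihx
    obtain ⟨l, hl, hly⟩ := ihy
    refine ⟨m * l, Nat.mul_pos hm hl, ?_⟩
    have h1 : ((m * l : ℕ) : ℚ) • (x + y) = l • ((m : ℚ) • x) + m • ((l : ℚ) • y) := by
      rw [← Nat.cast_smul_eq_nsmul ℚ, ← Nat.cast_smul_eq_nsmul ℚ, smul_smul, smul_smul,
        smul_add, Nat.cast_mul, mul_comm (l : ℚ)]
    rw [h1]
    exact A.add_mem (A.nsmul_mem hmx l) (A.nsmul_mem hly m)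
  | smul c x _ ihx =>
    obtain ⟨m, hm, hmx⟩ := ihx
    refine ⟨c.den * m, Nat.mul_pos c.den_pos hm, ?_⟩
    have h1 : ((c.den * m : ℕ) : ℚ) • (c • x) = c.num • ((m : ℚ) • x) := by
      rw [← Int.cast_smul_eq_zsmul ℚ, smul_smul, smul_smul]
      congr 1
      have h2 : (c.den : ℚ) * c = c.num := Rat.den_mul_eq_num c
      rw [Nat.cast_mul, mul_right_comm, h2]
    rw [h1]
    exact A.zsmul_mem hmx c.num

/-- the additive group `f(Q(u))` -/
def ST_A {n : ℕ} (P : Subgroup (SLZ n)) (V : Submodule ℚ (VQ n)) (u : VQ n)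
    (hst : ∀ g ∈ P, ∀ w ∈ V, qg g *ᵥ w ∈ V) : AddSubgroup (VQ n) where
  carrier := {x | x ∈ V ∧ ∃ g ∈ P, (∀ w ∈ V, qg g *ᵥ w = w) ∧ qg g *ᵥ u = u + x}
  zero_mem' := ⟨V.zero_mem, 1, P.one_mem, fun w _ => by rw [qg_one, one_mulVec], by
    rw [qg_one, one_mulVec, add_zero]⟩
  add_mem' := by
    rintro x y ⟨hx, g, hg, hgV, hgu⟩ ⟨hy, h, hh, hhV, hhu⟩
    refine ⟨V.add_mem hx hy, g * h, P.mul_mem hg hh, fun w hw => ?_, ?_⟩
    · rw [ST_mul, hhV w hw, hgV w hw]
    · rw [ST_mul, hhu, mulVec_add, hgu, hgV y hy, add_assoc]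
  neg_mem' := by
    rintro x ⟨hx, g, hg, hgV, hgu⟩
    refine ⟨V.neg_mem hx, g⁻¹, P.inv_mem hg, fun w hw => ?_, ?_⟩
    · have h1 := ST_inv g w
      rwa [hgV w hw] at h1
    · have h1 := ST_inv g u
      rw [hgu, mulVec_add] at h1
      have h2 := ST_inv g x
      rw [hgV x hx] at h2
      rw [h2] at h1
      rw [← sub_eq_add_neg, eq_sub_iff_add_eq]
      exact h1

theorem ST_main {n : ℕ} (P : Subgroup (SLZ n)) (V : Submodule ℚ (VQ n))
    (hst : ∀ g ∈ P, ∀ w ∈ V, qg g *ᵥ w ∈ V)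
    (hsch : ∀ g ∈ P, (∀ w ∈ V, qg g *ᵥ w = w) ∨ (∀ w ∈ V, qg g *ᵥ w = w → w = 0))
    (hcom : ∀ g ∈ P, ∀ h ∈ P, ∀ w ∈ V, qg (g * h * g⁻¹ * h⁻¹) *ᵥ w = w)
    (hP : PStar P) (v : VQ n) (hv : v ∈ V) (hv0 : v ≠ 0) : RedV P v := by
  intro u
  choose g hgP hginf hgu using fun w : VQ n => hP (u + w)
  by_cases hc : ∃ w ∈ V, ∀ w' ∈ V, qg (g w) *ᵥ w' = w'
  · obtain ⟨w, hw, hgV⟩ := hc
    have h1 : qg (g w) *ᵥ u = u := by
      have h2 := hgu w
      rw [mulVec_add, hgV w hw] at h2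
      exact add_right_cancel h2
    exact ⟨g w, hgP w, hginf w, hgV v hv, 0, by rw [h1, sub_self, zero_smul]⟩
  push Not at hc
  have hfix : ∀ w ∈ V, ∀ w' ∈ V, qg (g w) *ᵥ w' = w' → w' = 0 := by
    intro w hw
    rcases hsch (g w) (hgP w) with h | h
    · obtain ⟨w', hw', h'⟩ := hc w hw
      exact absurd (h w' hw') h'
    · exact h
  set A := ST_A P V u hst with hA
  set T := Submodule.span ℚ (A : Set (VQ n)) with hT
  have hTV : T ≤ V := Submodule.span_le.2 fun x hx => hx.1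
  -- the elements which fix `u` modulo `V` preserve `T`
  have hTst : ∀ h ∈ P, qg h *ᵥ u - u ∈ V → ∀ x ∈ T, qg h *ᵥ x ∈ T := by
    intro h hh hhu x hx
    induction hx using Submodule.span_induction with
    | mem x hx =>
      apply Submodule.subset_span
      obtain ⟨hxV, q, hq, hqV, hqu⟩ := hx
      refine ⟨hst h hh x hxV, h * q * h⁻¹, P.mul_mem (P.mul_mem hh hq) (P.inv_mem hh), ?_, ?_⟩
      · intro w hw
        rw [ST_mul, ST_mul, hqV _ (hst _ (P.inv_mem hh) w hw), ST_inv']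
      · set a := qg h *ᵥ u - u with ha
        have h1 : qg h *ᵥ u = u + a := by rw [ha]; abel
        have h2 : qg h⁻¹ *ᵥ u = u - qg h⁻¹ *ᵥ a := by
          have h3 := ST_inv h u
          rw [h1, mulVec_add] at h3
          rw [eq_sub_iff_add_eq]
          exact h3
        rw [ST_mul, ST_mul, h2, mulVec_sub, hqu, hqV _ (hst _ (P.inv_mem hh) a hhu), mulVec_sub,
          ST_inv', mulVec_add, h1]
        abel
    | zero => rw [mulVec_zero]; exact T.zero_mem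
    | add x y _ _ ihx ihy => rw [mulVec_add]; exact T.add_mem ihx ihy
    | smul c x _ ihx => rw [mulVec_smul]; exact T.smul_mem c ihx
  have hgV' : ∀ w ∈ V, qg (g w) *ᵥ u - u ∈ V := by
    intro w hw
    have h1 := hgu w
    rw [mulVec_add] at h1
    have h2 : qg (g w) *ᵥ u - u = w - qg (g w) *ᵥ w := by
      rw [sub_eq_sub_iff_add_eq_add, h1, add_comm]
    rw [h2]
    exact V.sub_mem hw (hst _ (hgP w) w hw)
  -- `g w - 1` is bijective on `T`
  have hbij : ∀ w ∈ V, ∀ x ∈ V, qg (g w) *ᵥ x - x ∈ T → x ∈ T := by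
    intro w hw x hx hxT
    obtain ⟨t, ht, hteq⟩ := ST_surj (Matrix.toLin' (qg (g w)) - LinearMap.id) T
      (fun y hy => by
        rw [LinearMap.sub_apply, Matrix.toLin'_apply, LinearMap.id_apply]
        exact T.sub_mem (hTst _ (hgP w) (hgV' w hw) y hy) hy)
      (fun y hy h => by
        rw [LinearMap.sub_apply, Matrix.toLin'_apply, LinearMap.id_apply, sub_eq_zero] at h
        exact hfix w hw y (hTV hy) h) _ hxT
    rw [LinearMap.sub_apply, Matrix.toLin'_apply, LinearMap.id_apply] at hteq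
    have h1 : qg (g w) *ᵥ (x - t) = x - t := by
      rw [mulVec_sub, sub_eq_sub_iff_sub_eq_sub]
      exact hteq.symm
    have h2 := hfix w hw (x - t) (V.sub_mem hx (hTV ht)) h1
    rw [sub_eq_zero.1 h2]
    exact ht
  have hVT : V ≤ T := by
    intro w hw
    set x := w - qg (g w) *ᵥ w with hx
    have hxV : x ∈ V := V.sub_mem hw (hst _ (hgP w) w hw)
    have hhu : qg (g w) *ᵥ u = u + x := by
      have h1 := hgu w
      rw [mulVec_add] at h1
      rw [hx, ← add_sub_assoc, eq_sub_iff_add_eq]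
      exact h1
    have hg0 : qg (g 0) *ᵥ u = u := by
      have h1 := hgu 0
      rwa [add_zero] at h1
    have h1 : qg (g 0) *ᵥ x - x ∈ T := by
      apply Submodule.subset_span
      refine ⟨V.sub_mem (hst _ (hgP 0) x hxV) hxV, g 0 * g w * (g 0)⁻¹ * (g w)⁻¹,
        P.mul_mem (P.mul_mem (P.mul_mem (hgP 0) (hgP w)) (P.inv_mem (hgP 0))) (P.inv_mem (hgP w)),
        hcom _ (hgP 0) _ (hgP w), ?_⟩
      have h2 : qg (g 0 * g w * (g 0)⁻¹ * (g w)⁻¹) *ᵥ (u + x) = u + qg (g 0) *ᵥ x := by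
        rw [← hhu]
        have h3 : qg (g w) *ᵥ u = qg (g w) *ᵥ (qg (g 0) *ᵥ u) := by rw [hg0]
        rw [h3, ST_mul, ST_inv, ST_mul, ST_inv, ST_mul, hhu, mulVec_add, hg0]
      rw [mulVec_add, hcom _ (hgP 0) _ (hgP w) x hxV] at h2
      rw [← add_sub_assoc, eq_sub_iff_add_eq]
      exact h2
    have h2 := hbij 0 V.zero_mem x hxV h1
    apply hbij w hw w hw
    have h3 : qg (g w) *ᵥ w - w = -x := by rw [hx, neg_sub]
    rw [h3]
    exact T.neg_mem h2
  obtain ⟨m, hm, hmv⟩ := ST_clear A (hVT hv)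
  obtain ⟨-, q, hq, hqV, hqu⟩ := hmv
  refine ⟨q, hq, ?_, hqV v hv, m, ?_⟩
  · intro j hj hqj
    have h1 : ∀ j : ℕ, qg (q ^ j) *ᵥ u = u + ((j : ℚ) * m) • v := by
      intro j
      induction j with
      | zero => rw [pow_zero, qg_one, one_mulVec, Nat.cast_zero, zero_mul, zero_smul, add_zero]
      | succ j ih =>
        rw [pow_succ', ST_mul, ih, mulVec_add, hqu, hqV _ (V.smul_mem _ hv), add_assoc, ← add_smul]
        congr 2
        push_cast
        ring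
    have h2 := h1 j
    rw [hqj, qg_one, one_mulVec, left_eq_add, smul_eq_zero] at h2
    rcases h2 with h2 | h2
    · rcases mul_eq_zero.1 h2 with h3 | h3
      · exact hj.ne' (by exact_mod_cast h3)
      · exact hm.ne' (by exact_mod_cast h3)
    · exact hv0 h2
  · rw [hqu, add_sub_cancel_left]

theorem ST : ST_stmt := by
  intro n hn P 𝔲 k W hFS hP
  have hex : ∃ j, W j ≠ ⊥ := by
    refine ⟨k, ?_⟩
    rw [hFS.top]
    intro h
    have h1 : (Pi.single (⟨0, hn⟩ : Fin n) 1 : VQ n) ∈ (⊥ : Submodule ℚ (VQ n)) := by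
      rw [← h]; trivial
    rw [Submodule.mem_bot] at h1
    have h2 := congrFun h1 ⟨0, hn⟩
    rw [Pi.single_eq_same] at h2
    exact one_ne_zero h2
  classical
  obtain ⟨i, hi⟩ : ∃ i, Nat.find hex = i + 1 := by
    refine Nat.exists_eq_succ_of_ne_zero fun h0 => ?_
    have h1 := Nat.find_spec hex
    rw [h0] at h1
    exact h1 hFS.bot
  have hi1 : W (i + 1) ≠ ⊥ := by rw [← hi]; exact Nat.find_spec hex
  have hi0 : W i = ⊥ := by
    by_contra h
    have h1 := Nat.find_min' hex h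
    omega
  obtain ⟨v, hv, hv0⟩ := Submodule.exists_mem_ne_zero_of_ne_bot hi1
  refine ⟨v, hv0, ST_main P (W (i + 1)) (fun g hg w hw => hFS.stab g hg _ w hw) ?_ ?_ hP v hv hv0⟩
  · intro g hg
    rcases hFS.schur g hg i with h | h
    · left
      intro w hw
      have h1 := h w hw
      rw [hi0, Submodule.mem_bot, sub_eq_zero] at h1
      exact h1
    · right
      intro w hw hgw
      have h1 := h w hw (by rw [hgw, sub_self]; exact Submodule.zero_mem _)
      rwa [hi0, Submodule.mem_bot] at h1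
  · intro g hg h hh w hw
    obtain ⟨X, hX, hXe⟩ := hFS.com g hg h hh
    rw [hXe]
    apply ST_exp (fil_one_nil hFS.bot hFS.top ((mem_fil_one hFS.bot).2 (hFS.down X hX)))
    have h1 := hFS.down X hX i w hw
    rwa [hi0, Submodule.mem_bot] at h1

end Pool.Agent.BS
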